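import Pool.Agent.Helper3.TP.St
import Pool.Agent.Helper3.TL.M_ADJ2
import Pool.Agent.Helper80.TL.M_FAM1
import Pool.Agent.Helper80.TL.M_FAR1

open Finset
open MP86d903 (Valid Lit inside mem_inside pt flip Clause Ineq clauseIneq vsF ngF)
open Helper80.SR (Exp Closed Cl Sm)
open Helper3.TL Helper3.TP

namespace Helper47.TP

theorem hPool : PPool := by
  intro ι V _ _ _ _ vs ng q B T T' A a a₀ a' g g₀ ha' hT hP
  classical
  obtain ⟨U, s, h1, h2⟩ := hP
  set f : Fin T → ℤ := fun i => ∑ v ∈ U i, a' v * sg (s i v) with hf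
  have hfb : ∀ i, f i ∈ Finset.Icc (-((B * 3 : ℕ) : ℤ)) ((B * 3 : ℕ) : ℤ) := by
    intro i
    have h3 : |f i| ≤ B * (U i).card := sum_sg_le ha' (s i)
    have h4 : (B : ℤ) * ((U i).card : ℤ) ≤ B * 3 := by
      refine mul_le_mul_of_nonneg_left ?_ (Int.natCast_nonneg B)
      exact_mod_cast (h2 i).2.1
    rw [Finset.mem_Icc]
    have h5 := abs_le.mp (h3.trans h4)
    push_cast
    exact h5
  obtain ⟨y, hy, hlt⟩ := Finset.exists_lt_card_fiber_of_mul_lt_card_of_maps_to
    (s := (univ : Finset (Fin T)))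
    (t := Finset.Icc (-((B * 3 : ℕ) : ℤ)) ((B * 3 : ℕ) : ℤ)) (f := f) (n := T')
    (fun i _ => hfb i) (by
      rw [Int.card_Icc, card_univ, Fintype.card_fin]
      have h3 : (((B * 3 : ℕ) : ℤ) + 1 - -((B * 3 : ℕ) : ℤ)).toNat = 6 * B + 1 := by
        omega
      rw [h3]
      omega)
  set S := univ.filter (fun i => f i = y) with hS
  have hle : T' ≤ S.card := hlt.le
  refine ⟨y, ?_, fun i => U (S.orderEmbOfFin rfl (Fin.castLE hle i)),
    fun i => s (S.orderEmbOfFin rfl (Fin.castLE hle i)), ?_, ?_⟩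
  · rw [Finset.mem_Icc] at hy
    push_cast at hy
    have h3 := abs_le.mpr hy
    linarith
  · intro i j hij
    refine h1 _ _ (fun h => hij ?_)
    exact Fin.castLE_injective hle ((S.orderEmbOfFin rfl).injective h)
  · intro i
    have h3 := h2 (S.orderEmbOfFin rfl (Fin.castLE hle i))
    have h4 : S.orderEmbOfFin rfl (Fin.castLE hle i) ∈ S := Finset.orderEmbOfFin_mem _ _ _
    exact ⟨h3.1, h3.2.1, h3.2.2.1, h3.2.2.2.1, h3.2.2.2.2.1, (mem_filter.mp h4).2⟩

theorem hAdj2 (hR : PRad) (hA : PAdj1) : PAdj2 := by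
  intro ι V _ _ _ _ vs ng q D κ K J T A R₁ σ₁ a a' g g' j hE hAR hRc hRK hj hT hP
  obtain ⟨t1, -⟩ := Helper80.TL.hFam1 ι V vs ng q D κ A hE
  obtain ⟨U, s, hU, hG⟩ := hP
  set L := rad (2 * (K + J * 3 + 3)) + 1 with hL
  have main : ∀ t : ℕ, t ≤ J → ∀ j : ℤ, j.natAbs = t →
      ∃ R₂ σ₂, Ext vs ng q A (K + t * 3) R₁ σ₁ R₂ σ₂ ∧
      (∀ c, lv a c R₂ σ₂ = lv a c R₁ σ₁ + j * g) ∧
      ∀ c, lv a' c R₂ σ₂ = lv a' c R₁ σ₁ + j * g' := by
    intro t
    induction t with
    | zero =>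
      intro _ j hj
      have hj0 : j = 0 := by omega
      refine ⟨R₁, σ₁, Ext.rfl' hRc (by omega), ?_, ?_⟩
      · intro c
        rw [hj0]
        ring
      · intro c
        rw [hj0]
        ring
    | succ t ih =>
      intro ht j hj
      set b : Bool := decide (0 < j) with hb
      have hsg : (j - sg b).natAbs = t := by
        by_cases h : 0 < j
        · have : sg b = 1 := by simp [hb, h, sg]
          rw [this]
          omega
        · have : sg b = -1 := by simp [hb, h, sg]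
          rw [this]
          omega
      obtain ⟨R₂, σ₂, hext, hv1, hv2⟩ := ih (by omega) (j - sg b) hsg
      have hAR₂ : A ⊆ R₂ := hAR.trans hext.1
      obtain ⟨n1, n2, n3, n4⟩ := Helper80.TL.hFar1 ι V vs q D κ A (R₂ \ A) L hE sdiff_disjoint
      have hcard : (near vs A L (R₂ \ A)).card < T := by
        have h2 : (R₂ \ A).card * (2 * D + 1) ^ L ≤ (K + J * 3) * (2 * D + 1) ^ L := by
          refine Nat.mul_le_mul_right _ ?_
          have := hext.2.2.1
          omega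
        have h3 : adjT D K J = (K + J * 3) * (2 * D + 1) ^ L + 1 := rfl
        omega
      obtain ⟨i, hi⟩ := exists_disjoint U hU _ hcard
      obtain ⟨g1, g2, g3, g4, g5, g6⟩ := hG i
      have hnear : Disjoint (U i)
          (near vs A (rad (2 * (K + t * 3 + 3)) + 1) (R₂ \ A)) := by
        refine disjoint_of_subset_right ?_ hi
        have hm := (Helper80.TL.hFar1 ι V vs q D κ A (R₂ \ A)
          (rad (2 * (K + t * 3 + 3)) + 1) hE sdiff_disjoint).2.2.2
        have hr := hR.2.1 (2 * (K + t * 3 + 3)) (2 * (K + J * 3 + 3)) (by omega)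
        exact hm (R₂ \ A) L (subset_refl _) (by omega)
      obtain ⟨σ₃, hσ₃, hval⟩ := hA ι V vs ng q D κ (K + t * 3) A R₂ (U i) σ₂ (s i) hE hAR₂
        hext.2.1 hext.2.2.1 g1 g2 g3 g4 hnear b
      refine ⟨R₂ ∪ U i, σ₃, ?_, ?_, ?_⟩
      · have := t1 _ _ _ _ _ _ _ _ hext hσ₃
        refine this.mono ?_
        omega
      · intro c
        rw [hval a c, hv1 c, g5]
        ring
      · intro c
        rw [hval a' c, hv2 c, g6]
        ring
  have hjJ : j.natAbs ≤ J := by
    have h0 := abs_le.mp hj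
    omega
  obtain ⟨R₂, σ₂, h1, h3, h4⟩ := main j.natAbs hjJ j rfl
  refine ⟨R₂, σ₂, h1.mono ?_, h3, h4⟩
  omega

end Helper47.TP
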